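import Mathlib

/-!
Definitions: Weil numbers, equality up to roots of unity, mean square of the slopes of a Weil
number, the space `M ⊗ U ⊗ Λ V` with its Frobenius, its Tate classes and the known classes.
-/

namespace Pool.Agent.H61.TM

open Polynomial
open scoped TensorProduct

/-- `x` and `y` are equal up to a root of unity (some positive powers agree) -/
def Sim (x y : ℂ) : Prop := ∃ n : ℕ, 0 < n ∧ x ^ n = y ^ n

/-- `x` is a Weil `q`-number of weight `w`: an algebraic integer all of whose conjugates have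
absolute value `q ^ (w / 2)` -/
def IsWeil (q w : ℕ) (x : ℂ) : Prop :=
  IsIntegral ℤ x ∧ ∀ t : ℂ, aeval t (minpoly ℚ x) = 0 → ‖t‖ ^ 2 = (q : ℝ) ^ w

/-- the `p`-adic valuation `v` on the algebraic closure of `ℚ_p`, normalised by `v q = 1` -/
noncomputable def slope (p q : ℕ) [Fact p.Prime] (t : PadicAlgCl p) : ℝ :=
  -Real.log ‖t‖ / Real.log q

/-- the mean of `(2 v(t) - w) ^ 2` over the conjugates `t` of `x` in the algebraic closure of
`ℚ_p` -/
noncomputable def meanSq (p q w : ℕ) [Fact p.Prime] (x : ℂ) : ℝ :=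
  (((minpoly ℚ x).aroots (PadicAlgCl p)).map fun t => (2 * slope p q t - w) ^ 2).sum /
    (minpoly ℚ x).natDegree

/-- `x` is a Tate class of weight `m` for the Frobenius `F`: after a finite extension of the
ground field, `F` multiplies `x` by `q ^ (m / 2)` -/
def IsTate (q m : ℕ) {W : Type*} [AddCommGroup W] [Module ℂ W] (F : Module.End ℂ W) (x : W) :
    Prop :=
  ∃ n : ℕ, 0 < n ∧ (F ^ (2 * n)) x = (q : ℂ) ^ (m * n) • x

variable {M U V : Type*} [AddCommGroup M] [Module ℂ M] [AddCommGroup U] [Module ℂ U]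
  [AddCommGroup V] [Module ℂ V]

/-- the Frobenius of `U ⊗ Λ V` -/
noncomputable def frobU (FU : Module.End ℂ U) (FV : Module.End ℂ V) :
    Module.End ℂ (U ⊗[ℂ] ExteriorAlgebra ℂ V) :=
  TensorProduct.map FU (ExteriorAlgebra.map FV).toLinearMap

/-- the Frobenius of `M ⊗ (U ⊗ Λ V)` -/
noncomputable def frob (FM : Module.End ℂ M) (FU : Module.End ℂ U) (FV : Module.End ℂ V) :
    Module.End ℂ (M ⊗[ℂ] (U ⊗[ℂ] ExteriorAlgebra ℂ V)) :=
  TensorProduct.map FM (frobU FU FV)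

/-- the subspace `U ⊗ Λ^k V` of `U ⊗ Λ V` -/
noncomputable def degU (U V : Type*) [AddCommGroup U] [Module ℂ U] [AddCommGroup V] [Module ℂ V]
    (k : ℕ) : Submodule ℂ (U ⊗[ℂ] ExteriorAlgebra ℂ V) :=
  LinearMap.range (TensorProduct.map (LinearMap.id : U →ₗ[ℂ] U) (⋀[ℂ]^k V).subtype)

/-- the subspace `M ⊗ (U ⊗ Λ^k V)` of `M ⊗ (U ⊗ Λ V)` -/
noncomputable def deg (M U V : Type*) [AddCommGroup M] [Module ℂ M] [AddCommGroup U] [Module ℂ U]
    [AddCommGroup V] [Module ℂ V] (k : ℕ) :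
    Submodule ℂ (M ⊗[ℂ] (U ⊗[ℂ] ExteriorAlgebra ℂ V)) :=
  LinearMap.range (TensorProduct.map (LinearMap.id : M →ₗ[ℂ] M) (degU U V k).subtype)

/-- multiplication by `z` in `Λ V` -/
noncomputable def mulBy (M U : Type*) {V : Type*} [AddCommGroup M] [Module ℂ M] [AddCommGroup U]
    [Module ℂ U] [AddCommGroup V] [Module ℂ V] (z : ExteriorAlgebra ℂ V) :
    Module.End ℂ (M ⊗[ℂ] (U ⊗[ℂ] ExteriorAlgebra ℂ V)) :=
  TensorProduct.map (LinearMap.id : M →ₗ[ℂ] M)
    (TensorProduct.map (LinearMap.id : U →ₗ[ℂ] U) (LinearMap.mulRight ℂ z))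

/-- the least subspace of `M ⊗ U ⊗ Λ V` which is closed under multiplication by Tate classes of
degree two of `V` and contains (1) the Tate classes in `M ⊗ U ⊗ Λ^k V` with `k = 0` or `k c < N`,
(2) the products of a Tate class of `M` and a Tate class in `U ⊗ Λ^k V` with `k c = N` -/
inductive Known (q w b : ℕ) (N c : ℝ) (FM : Module.End ℂ M) (FU : Module.End ℂ U)
    (FV : Module.End ℂ V) : M ⊗[ℂ] (U ⊗[ℂ] ExteriorAlgebra ℂ V) → Prop
  | low (k m : ℕ) (x : M ⊗[ℂ] (U ⊗[ℂ] ExteriorAlgebra ℂ V)) (hk : k = 0 ∨ k * c < N)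
      (hx : x ∈ deg M U V k) (ht : IsTate q m (frob FM FU FV) x) : Known q w b N c FM FU FV x
  | top (k : ℕ) (s : M) (r : U ⊗[ℂ] ExteriorAlgebra ℂ V) (hk : k * c = N)
      (hs : IsTate q w FM s) (hr : r ∈ degU U V k) (ht : IsTate q (b + k) (frobU FU FV) r) :
      Known q w b N c FM FU FV (s ⊗ₜ[ℂ] r)
  | mul (x : M ⊗[ℂ] (U ⊗[ℂ] ExteriorAlgebra ℂ V)) (z : ExteriorAlgebra ℂ V)
      (hx : Known q w b N c FM FU FV x) (hz : z ∈ ⋀[ℂ]^2 V)
      (ht : IsTate q 2 (ExteriorAlgebra.map FV).toLinearMap z) :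
      Known q w b N c FM FU FV (mulBy M U z x)
  | add (x x' : M ⊗[ℂ] (U ⊗[ℂ] ExteriorAlgebra ℂ V)) (hx : Known q w b N c FM FU FV x)
      (hx' : Known q w b N c FM FU FV x') : Known q w b N c FM FU FV (x + x')
  | smul (a : ℂ) (x : M ⊗[ℂ] (U ⊗[ℂ] ExteriorAlgebra ℂ V)) (hx : Known q w b N c FM FU FV x) :
      Known q w b N c FM FU FV (a • x)

end Pool.Agent.H61.TM
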