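import Mathlib
import Pool.Agent.H61.TM.Defs

/-!
Number theory: the inequality between mean squares of slopes in a multiplicative relation.
-/

namespace Pool.Agent.H61.TM

open Polynomial

/-! ### a positivity lemma on finite sums -/

theorem sum_sq_ge {G ι : Type*} [Fintype G] (u : ι → G → ℝ) (l : List ι)
    (h : l.Pairwise fun i j => 0 ≤ ∑ g, u i g * u j g) :
    (l.map fun i => ∑ g, (u i g) ^ 2).sum ≤ ∑ g, ((l.map fun i => u i g).sum) ^ 2 := by
  induction l with
  | nil => simp
  | cons i l ih =>
    rw [List.pairwise_cons] at h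
    have h1 := ih h.2
    have h2 : 0 ≤ ∑ g, u i g * ((l.map fun j => u j g).sum) := by
      have : ∀ l' : List ι, (∀ j ∈ l', 0 ≤ ∑ g, u i g * u j g) →
          0 ≤ ∑ g, u i g * ((l'.map fun j => u j g).sum) := by
        intro l'
        induction l' with
        | nil => simp
        | cons j l' ih' =>
          intro hj
          have e : ∑ g, u i g * (((j :: l').map fun j => u j g).sum) =
              ∑ g, u i g * u j g + ∑ g, u i g * ((l'.map fun j => u j g).sum) := by
            rw [← Finset.sum_add_distrib]
            refine Finset.sum_congr rfl fun g _ => ?_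
            simp only [List.map_cons, List.sum_cons]; ring
          rw [e]
          exact add_nonneg (hj j (by simp)) (ih' fun j' hj' => hj j' (by simp [hj']))
      exact this l h.1
    have e : ∑ g, (((i :: l).map fun i => u i g).sum) ^ 2 =
        ∑ g, (u i g) ^ 2 + 2 * ∑ g, u i g * ((l.map fun j => u j g).sum) +
          ∑ g, ((l.map fun i => u i g).sum) ^ 2 := by
      rw [Finset.mul_sum, ← Finset.sum_add_distrib, ← Finset.sum_add_distrib]
      refine Finset.sum_congr rfl fun g _ => ?_
      simp only [List.map_cons, List.sum_cons]; ring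
    rw [e]
    simp only [List.map_cons, List.sum_cons]
    linarith

/-! ### the p-adic valuation -/

section val
variable {p : ℕ} [Fact p.Prime]

theorem slope_mul (q : ℕ) {s t : PadicAlgCl p} (hs : s ≠ 0) (ht : t ≠ 0) :
    slope p q (s * t) = slope p q s + slope p q t := by
  unfold slope
  rw [norm_mul, Real.log_mul (norm_ne_zero_iff.mpr hs) (norm_ne_zero_iff.mpr ht)]
  ring

theorem slope_pow (q : ℕ) (t : PadicAlgCl p) (n : ℕ) :
    slope p q (t ^ n) = n * slope p q t := by
  unfold slope
  rw [norm_pow, Real.log_pow]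
  ring

theorem slope_one (q : ℕ) : slope p q (1 : PadicAlgCl p) = 0 := by
  unfold slope
  rw [norm_one, Real.log_one]; simp

theorem norm_p : ‖(p : PadicAlgCl p)‖ = (p : ℝ)⁻¹ := by
  have h := PadicAlgCl.valuation_p p
  have h2 := PadicAlgCl.valuation_coe p (p : PadicAlgCl p)
  rw [← h2, h]; simp

theorem slope_q {f : ℕ} (hf : f ≠ 0) {q : ℕ} (hq : q = p ^ f) :
    slope p q (q : PadicAlgCl p) = 1 := by
  have hp : (1:ℝ) < p := by exact_mod_cast (Fact.out : p.Prime).one_lt
  have hl : Real.log p ≠ 0 := (Real.log_pos hp).ne'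
  unfold slope
  rw [hq]
  push_cast
  rw [norm_pow, norm_p, inv_pow, Real.log_inv, Real.log_pow, neg_neg]
  apply div_self
  exact mul_ne_zero (by exact_mod_cast hf) hl

end val

end Pool.Agent.H61.TM
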