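import Mathlib
import Pool.Agent.H61.TM.Defs
import Pool.Agent.H61.TM.Num

/-!
Kronecker: an algebraic integer all of whose complex absolute values are `q ^ (D / 2)` and all of
whose conjugates have `p`-adic slope `D / 2` is `q ^ (D / 2)` up to a root of unity.
-/

namespace Pool.Agent.H61.TM

open Polynomial

section kron

variable {L : Type*} [Field L] [NumberField L] [IsGalois ℚ L] {p : ℕ} [Fact p.Prime]

/-- elements integral at the chosen place above `p` and away from `p` -/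
def pRing (φ : L →+* PadicAlgCl p) (q : ℕ) : Subring L where
  carrier := {x | ‖φ x‖ ≤ 1 ∧ ∃ k : ℕ, IsIntegral ℤ ((q:L)^k * x)}
  mul_mem' := by
    rintro a b ⟨h1, k1, h1'⟩ ⟨h2, k2, h2'⟩
    refine ⟨?_, k1 + k2, ?_⟩
    · rw [map_mul, norm_mul]; exact mul_le_one₀ h1 (norm_nonneg _) h2
    · have : (q:L)^(k1+k2) * (a*b) = ((q:L)^k1 * a) * ((q:L)^k2 * b) := by ring
      rw [this]; exact h1'.mul h2'
  one_mem' := by
    refine ⟨by rw [map_one, norm_one], 0, by simpa using isIntegral_one⟩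
  add_mem' := by
    rintro a b ⟨h1, k1, h1'⟩ ⟨h2, k2, h2'⟩
    refine ⟨?_, k1 + k2, ?_⟩
    · rw [map_add]; exact le_trans (PadicAlgCl.isNonarchimedean p _ _) (max_le h1 h2)
    · have : (q:L)^(k1+k2) * (a+b) = (q:L)^k2 * ((q:L)^k1 * a) + (q:L)^k1 * ((q:L)^k2 * b) := by ring
      rw [this]
      have hq : IsIntegral ℤ (q:L) := by
        have := isIntegral_algebraMap (R := ℤ) (A := L) (x := (q:ℤ))
        simpa using this
      exact ((hq.pow _).mul h1').add ((hq.pow _).mul h2')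
  zero_mem' := by
    refine ⟨by rw [map_zero, norm_zero]; exact zero_le_one, 0, by simpa using isIntegral_zero⟩
  neg_mem' := by
    rintro a ⟨h1, k1, h1'⟩
    refine ⟨by rw [map_neg, norm_neg]; exact h1, k1, ?_⟩
    rw [mul_neg]; exact h1'.neg

theorem norm_rat (c : ℚ) : ‖((c : ℚ) : PadicAlgCl p)‖ = ‖(c : ℚ_[p])‖ := by
  have h : ((c : ℚ) : PadicAlgCl p) = algebraMap ℚ_[p] (PadicAlgCl p) (c : ℚ_[p]) := by
    rw [map_ratCast]
  rw [h]
  exact PadicAlgCl.norm_extends p _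

theorem rat_int {f : ℕ} (c : ℚ) (h1 : ‖((c : ℚ) : PadicAlgCl p)‖ ≤ 1)
    (h2 : ∃ (k : ℕ) (z : ℤ), ((p^f : ℕ) : ℚ)^k * c = z) : ∃ z : ℤ, c = z := by
  have hp : p.Prime := Fact.out
  obtain ⟨k, z, hz⟩ := h2
  have hden : c.den ∣ p ^ (f * k) := by
    have e1 : (c.num : ℚ) * ((p^(f*k) : ℕ) : ℚ) = z * c.den := by
      have e : c * c.den = c.num := Rat.mul_den_eq_num c
      rw [← e, ← hz]; push_cast; rw [pow_mul]; ring
    have e2 : c.num * ((p^(f*k) : ℕ) : ℤ) = z * c.den := by exact_mod_cast e1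
    have e3 : (c.den : ℤ) ∣ c.num * ((p^(f*k) : ℕ) : ℤ) := ⟨z, by rw [e2]; ring⟩
    have e4 : IsCoprime (c.den : ℤ) c.num := by
      have := c.reduced
      rw [Int.isCoprime_iff_gcd_eq_one, Int.gcd_comm]
      exact this
    have e5 := e4.dvd_of_dvd_mul_left e3
    exact_mod_cast e5
  obtain ⟨i, -, hi⟩ := (Nat.dvd_prime_pow hp).mp hden
  rcases Nat.eq_zero_or_pos i with h0 | hpos
  · refine ⟨c.num, ?_⟩
    have : c.den = 1 := by rw [hi, h0, pow_zero]
    exact ((Rat.den_eq_one_iff c).mp this).symm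
  · exfalso
    rw [norm_rat] at h1
    have hcop : Nat.Coprime c.num.natAbs p := by
      have := c.reduced
      rw [hi] at this
      exact Nat.Coprime.coprime_dvd_right (dvd_pow_self p (by omega)) this
    have hnum : ‖((c.num : ℤ) : ℚ_[p])‖ = 1 := by
      have h3 : ¬ ((p : ℤ) ∣ c.num) := by
        intro h
        have h4 : p ∣ c.num.natAbs := Int.natCast_dvd.mp h
        have h5 := Nat.Coprime.eq_one_of_dvd hcop.symm h4
        exact hp.one_lt.ne' h5
      have h6 := mt (Padic.norm_intCast_lt_one_iff (p := p) (k := c.num)).mp h3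
      have h7 := Padic.norm_int_le_one (p := p) c.num
      exact le_antisymm h7 (not_lt.mp h6)
    have hd : ‖((c.den : ℕ) : ℚ_[p])‖ < 1 := by
      rw [hi]
      push_cast
      rw [norm_pow]
      apply pow_lt_one₀ (norm_nonneg _) Padic.norm_p_lt_one (by omega)
    have e : (c : ℚ_[p]) * ((c.den : ℕ) : ℚ_[p]) = ((c.num : ℤ) : ℚ_[p]) := by
      have h3 := Rat.mul_den_eq_num c
      exact_mod_cast congrArg (fun t : ℚ => (t : ℚ_[p])) h3
    have e2 := congrArg norm e
    rw [norm_mul, hnum] at e2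
    have : ‖(c : ℚ_[p])‖ * ‖((c.den : ℕ) : ℚ_[p])‖ < 1 := by
      calc ‖(c : ℚ_[p])‖ * ‖((c.den : ℕ) : ℚ_[p])‖ ≤ 1 * ‖((c.den : ℕ) : ℚ_[p])‖ := by
            gcongr
        _ < 1 := by rw [one_mul]; exact hd
    rw [e2] at this
    exact lt_irrefl _ this

theorem kron (φ : L →+* PadicAlgCl p) {f : ℕ} (q : ℕ) (hq : q = p ^ f) (D : ℕ) (θ : L)
    (hint : IsIntegral ℤ θ)
    (hval : ∀ σ : L ≃ₐ[ℚ] L, ‖φ (σ θ)‖ ^ 2 = ‖((q : ℕ) : PadicAlgCl p)‖ ^ D)
    (habs : ∀ ψ : L →+* ℂ, ‖ψ θ‖ ^ 2 = (q : ℝ)^D) :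
    ∃ M : ℕ, 1 ≤ M ∧ θ^(2*M) = (q : L)^(D*M) := by
  have hp : p.Prime := Fact.out
  have hqn : q ≠ 0 := by rw [hq]; exact pow_ne_zero _ hp.ne_zero
  have hq0 : (q:L) ≠ 0 := by exact_mod_cast hqn
  have hqR0 : (0:ℝ) < (q:ℝ) := by
    have : 0 < q := Nat.pos_of_ne_zero hqn
    exact_mod_cast this
  have hqP : ((q : ℕ) : PadicAlgCl p) ≠ 0 := by exact_mod_cast hqn
  set γ : L := θ^2 / (q:L)^D with hγ
  have hvγ : ∀ σ : L ≃ₐ[ℚ] L, ‖φ (σ γ)‖ = 1 := by
    intro σ
    rw [hγ, map_div₀, map_pow, map_pow, map_natCast, map_div₀, map_pow, map_pow, map_natCast,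
      norm_div, norm_pow, norm_pow, hval σ]
    exact div_self (pow_ne_zero _ (norm_ne_zero_iff.mpr hqP))
  -- all conjugates of γ are in the ring
  have hconj : ∀ σ : L ≃ₐ[ℚ] L, σ γ ∈ pRing φ q := by
    intro σ
    refine ⟨(hvγ σ).le, D, ?_⟩
    have e : (q:L)^D * σ γ = (σ θ)^2 := by
      rw [hγ, map_div₀, map_pow, map_pow, map_natCast]
      field_simp
    rw [e]
    exact (hint.map (σ : L →ₐ[ℚ] L).toRingHom.toIntAlgHom).pow 2
  have hsplit : Splits ((minpoly ℚ γ).map (algebraMap ℚ L)) := Normal.splits inferInstance γ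
  have hcoef : ∀ n, (algebraMap ℚ L) ((minpoly ℚ γ).coeff n) ∈ pRing φ q := by
    intro n
    have hprod : (minpoly ℚ γ).map (algebraMap ℚ L) =
        ((((minpoly ℚ γ).map (algebraMap ℚ L)).roots).map (fun r => X - C r)).prod := by
      exact hsplit.eq_prod_roots_of_monic ((minpoly.monic (Algebra.IsIntegral.isIntegral γ)).map _)
    have hlift : (minpoly ℚ γ).map (algebraMap ℚ L) ∈ Polynomial.lifts (pRing φ q).subtype := by
      rw [hprod]
      apply Subsemiring.multiset_prod_mem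
      intro f hf
      obtain ⟨r, hr, rfl⟩ := Multiset.mem_map.mp hf
      have hr' : r ∈ (minpoly ℚ γ).aroots L := hr
      have hcr : IsConjRoot ℚ γ r := by
        rw [isConjRoot_iff_mem_minpoly_aroots (Algebra.IsIntegral.isIntegral γ)]
        exact hr'
      obtain ⟨σ, hσ⟩ := (isConjRoot_iff_exists_algEquiv).mp hcr.symm
      have hrm : r ∈ pRing φ q := by rw [← hσ]; exact hconj σ
      have h1 : (X : L[X]) ∈ Polynomial.lifts (pRing φ q).subtype := Polynomial.X_mem_lifts _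
      have h2 : (C r : L[X]) ∈ Polynomial.lifts (pRing φ q).subtype := by
        have := Polynomial.C_mem_lifts (pRing φ q).subtype ⟨r, hrm⟩
        exact this
      have h3 : (X - C r : L[X]) ∈ Polynomial.liftsRing (pRing φ q).subtype := by
        apply Subring.sub_mem
        · exact h1
        · exact h2
      exact h3
    have := (Polynomial.lifts_iff_coeff_lifts _).mp hlift n
    rw [Polynomial.coeff_map] at this
    obtain ⟨y, hy⟩ := this
    rw [← hy]; exact y.2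
  have hcoefZ : ∀ n, ∃ z : ℤ, (minpoly ℚ γ).coeff n = z := by
    intro n
    obtain ⟨h1, k, h2⟩ := hcoef n
    set c := (minpoly ℚ γ).coeff n with hc
    apply rat_int (p := p) (f := f) c
    · have : φ (algebraMap ℚ L c) = (c : PadicAlgCl p) := by
        rw [eq_ratCast, map_ratCast]
      rw [← this]; exact h1
    · refine ⟨k, ?_⟩
      have h3 : IsIntegral ℤ ((q:ℚ)^k * c) := by
        have h4 : (algebraMap ℚ L) ((q:ℚ)^k * c) = (q:L)^k * algebraMap ℚ L c := by
          rw [map_mul, map_pow, map_natCast]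
        rw [← h4] at h2
        exact (isIntegral_algebraMap_iff (algebraMap ℚ L).injective).mp h2
      obtain ⟨z, hz⟩ := IsIntegrallyClosed.isIntegral_iff.mp h3
      exact ⟨z, by rw [← hq, ← hz]; simp⟩
  have hγint : IsIntegral ℤ γ := by
    have hlift : minpoly ℚ γ ∈ Polynomial.lifts (algebraMap ℤ ℚ) := by
      rw [Polynomial.lifts_iff_coeff_lifts]
      intro n
      obtain ⟨z, hz⟩ := hcoefZ n
      exact ⟨z, by rw [hz]; simp⟩
    obtain ⟨f, hf1, -, hf2⟩ := Polynomial.lifts_and_natDegree_eq_and_monic hlift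
      (minpoly.monic (Algebra.IsIntegral.isIntegral γ))
    refine ⟨f, hf2, ?_⟩
    have : aeval γ (minpoly ℚ γ) = 0 := minpoly.aeval ℚ γ
    rw [← hf1, aeval_map_algebraMap] at this
    exact this
  have habsγ : ∀ ψ : L →+* ℂ, ‖ψ γ‖ = 1 := by
    intro ψ
    rw [hγ, map_div₀, map_pow, map_pow, map_natCast, norm_div, norm_pow, norm_pow, habs ψ]
    have : ‖(q:ℂ)‖ = (q:ℝ) := by simp
    rw [this]
    exact div_self (pow_pos hqR0 D).ne'
  obtain ⟨M, hM, hMγ⟩ := NumberField.Embeddings.pow_eq_one_of_norm_eq_one L ℂ hγint habsγ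
  refine ⟨M, hM, ?_⟩
  have : γ^M * ((q:L)^D)^M = (θ^2)^M := by
    rw [← mul_pow, hγ]; congr 1; field_simp
  rw [hMγ, one_mul] at this
  rw [pow_mul, pow_mul, this]

end kron

end Pool.Agent.H61.TM
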