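import Mathlib
import Pool.Agent.H61.TM.Defs

namespace Pool.Agent.H61.TM

open Polynomial

section field
variable {p : ℕ} [Fact p.Prime] (q : ℕ)
variable (K : IntermediateField ℚ ℂ) [FiniteDimensional ℚ K] [IsGalois ℚ K]
variable (φ : K →+* PadicAlgCl p)

theorem sum_gal (x : K) (h : PadicAlgCl p → ℝ) :
    (∑ σ : K ≃ₐ[ℚ] K, h (φ (σ x))) * (minpoly ℚ (x : ℂ)).natDegree =
      (Fintype.card (K ≃ₐ[ℚ] K)) *
        (((minpoly ℚ (x : ℂ)).aroots (PadicAlgCl p)).map h).sum := by
  classical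
  have hmin : minpoly ℚ (x : ℂ) = minpoly ℚ x :=
    minpoly.algebraMap_eq (A := ℚ) (algebraMap K ℂ).injective x
  rw [hmin]
  have hint : IsIntegral ℚ x := Algebra.IsIntegral.isIntegral x
  have hsp : Splits ((minpoly ℚ x).map (algebraMap ℚ K)) := Normal.splits inferInstance x
  have hroots : (minpoly ℚ x).aroots (PadicAlgCl p) = ((minpoly ℚ x).aroots K).map φ := by
    have e : (minpoly ℚ x).map (algebraMap ℚ (PadicAlgCl p)) =
        ((minpoly ℚ x).map (algebraMap ℚ K)).map φ := by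
      rw [Polynomial.map_map]
      congr 1
      exact RingHom.ext_rat _ _
    rw [aroots, e, hsp.roots_map_of_injective φ.injective, aroots]
  have hnodup : ((minpoly ℚ x).aroots K).Nodup :=
    nodup_roots (Separable.map (Algebra.IsSeparable.isSeparable ℚ x))
  have hcardR : Multiset.card ((minpoly ℚ x).aroots K) = (minpoly ℚ x).natDegree := by
    have := hsp.natDegree_eq_card_roots
    rw [natDegree_map] at this
    rw [aroots]; exact this.symm
  set R : Finset K := ((minpoly ℚ x).aroots K).toFinset with hR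
  have hRval : R.val = (minpoly ℚ x).aroots K := by
    rw [hR, Multiset.toFinset_val, hnodup.dedup]
  have hmemR : ∀ r, r ∈ R ↔ IsConjRoot ℚ x r := by
    intro r
    rw [hR, Multiset.mem_toFinset, isConjRoot_iff_mem_minpoly_aroots hint]
  have hσR : ∀ σ : K ≃ₐ[ℚ] K, σ x ∈ R := by
    intro σ
    rw [hmemR]
    exact (isConjRoot_iff_exists_algEquiv.mpr ⟨σ, rfl⟩).symm
  have htr : ∀ r ∈ R, ∃ σ : K ≃ₐ[ℚ] K, σ x = r := by
    intro r hr
    rw [hmemR] at hr
    exact isConjRoot_iff_exists_algEquiv.mp hr.symm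
  set s : ℕ := (Finset.univ.filter fun σ : K ≃ₐ[ℚ] K => σ x = x).card with hs
  have hfib : ∀ r ∈ R, (Finset.univ.filter fun σ : K ≃ₐ[ℚ] K => σ x = r).card = s := by
    intro r hr
    obtain ⟨τ, hτ⟩ := htr r hr
    rw [hs]
    symm
    refine Finset.card_bij (fun σ _ => τ * σ) ?_ ?_ ?_
    · intro σ hσ
      simp only [Finset.mem_filter, Finset.mem_univ, true_and] at hσ ⊢
      rw [AlgEquiv.mul_apply, hσ, hτ]
    · intro σ _ σ' _ h
      exact mul_left_cancel h
    · intro σ hσ
      simp only [Finset.mem_filter, Finset.mem_univ, true_and] at hσ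
      refine ⟨τ⁻¹ * σ, ?_, by simp⟩
      simp only [Finset.mem_filter, Finset.mem_univ, true_and]
      rw [AlgEquiv.mul_apply, hσ, ← hτ, ← AlgEquiv.mul_apply, inv_mul_cancel, AlgEquiv.one_apply]
  have h1 : ∑ σ : K ≃ₐ[ℚ] K, h (φ (σ x)) = s * ∑ r ∈ R, h (φ r) := by
    rw [← Finset.sum_fiberwise_of_maps_to (s := Finset.univ) (t := R) (g := fun σ => σ x)
      (fun σ _ => hσR σ), Finset.mul_sum]
    refine Finset.sum_congr rfl fun r hr => ?_
    rw [Finset.sum_congr rfl (g := fun _ => h (φ r))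
      (fun σ hσ => by rw [(Finset.mem_filter.mp hσ).2]), Finset.sum_const, hfib r hr, nsmul_eq_mul]
  have h2 : (Fintype.card (K ≃ₐ[ℚ] K)) = s * R.card := by
    rw [← Finset.card_univ, Finset.card_eq_sum_card_fiberwise (t := R) (f := fun σ => σ x)
      (fun σ _ => hσR σ), Finset.sum_congr rfl hfib, Finset.sum_const, smul_eq_mul, mul_comm]
  have h3 : R.card = (minpoly ℚ x).natDegree := by
    rw [Finset.card, hRval, hcardR]
  have h4 : ∑ r ∈ R, h (φ r) = (((minpoly ℚ x).aroots (PadicAlgCl p)).map h).sum := by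
    rw [hroots, Finset.sum, hRval, Multiset.map_map]
    rfl
  rw [h1, h2, h3, h4]
  push_cast
  ring

end field
end Pool.Agent.H61.TM
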