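import Mathlib
import Pool.Agent.H61.TM.Defs
import Pool.Agent.H61.TM.Num
import Pool.Agent.H61.TM.Num2
import Pool.Agent.H61.TM.Kron

/-!
The inequality between mean squares of slopes in a multiplicative relation of Weil numbers.
-/

namespace Pool.Agent.H61.TM

open Polynomial

section weil
variable {q w : ℕ} {x : ℂ}

theorem IsWeil.ne_zero (h : IsWeil q w x) (hq : q ≠ 0) : x ≠ 0 := by
  intro h0
  have := h.2 x (minpoly.aeval ℚ x)
  rw [h0] at this
  simp only [norm_zero] at this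
  have h2 : (0:ℝ) < (q:ℝ) ^ w := pow_pos (by exact_mod_cast Nat.pos_of_ne_zero hq) _
  norm_num at this
  exact absurd this.symm h2.ne'

theorem IsWeil.norm_sq (h : IsWeil q w x) : ‖x‖ ^ 2 = (q : ℝ) ^ w := by
  exact h.2 x (minpoly.aeval ℚ x)

end weil

section field
variable {p : ℕ} [Fact p.Prime] (q : ℕ)
variable (K : IntermediateField ℚ ℂ) [FiniteDimensional ℚ K] [IsGalois ℚ K]
variable (φ : K →+* PadicAlgCl p)

/-- twice the slope minus the weight, as a function on the Galois group -/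
noncomputable def uu (w : ℕ) (x : K) (σ : K ≃ₐ[ℚ] K) : ℝ := 2 * slope p q (φ (σ x)) - w

theorem mean_eq (w : ℕ) (x : K) :
    ∑ σ, (uu q K φ w x σ) ^ 2 = (Fintype.card (K ≃ₐ[ℚ] K)) * meanSq p q w (x : ℂ) := by
  have h := sum_gal K φ x (fun t => (2 * slope p q t - w) ^ 2)
  have hx : IsIntegral ℚ (x : ℂ) := (Algebra.IsIntegral.isIntegral (R := ℚ) x).map K.val
  have hd : ((minpoly ℚ (x:ℂ)).natDegree : ℝ) ≠ 0 := by
    exact_mod_cast (minpoly.natDegree_pos hx).ne'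
  unfold meanSq uu
  rw [mul_div_assoc', eq_div_iff hd]
  exact h

/-- restriction of an automorphism of `ℂ` -/
noncomputable def res (τ : ℂ ≃+* ℂ) : K ≃ₐ[ℚ] K := AlgEquiv.restrictNormal (τ.toRatAlgEquiv) K

theorem res_coe (τ : ℂ ≃+* ℂ) (x : K) : ((res K τ x : K) : ℂ) = τ (x : ℂ) := by
  have := AlgEquiv.restrictNormal_commutes (τ.toRatAlgEquiv) K x
  exact this

variable {K}

theorem slope_sim {x x' : K} (h : Sim (x : ℂ) (x' : ℂ)) (σ : K ≃ₐ[ℚ] K) :
    slope p q (φ (σ x)) = slope p q (φ (σ x')) := by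
  obtain ⟨n, hn, e⟩ := h
  have e2 : x ^ n = x' ^ n := by exact_mod_cast e
  have e3 := congrArg (fun t => slope p q (φ (σ t))) e2
  simp only [map_pow, slope_pow] at e3
  have hn' : (n : ℝ) ≠ 0 := by exact_mod_cast hn.ne'
  exact mul_left_cancel₀ hn' e3

variable {q}

theorem slope_nat {f : ℕ} (hf : f ≠ 0) (hq : q = p ^ f) (σ : K ≃ₐ[ℚ] K) :
    slope p q (φ (σ (q : K))) = 1 := by
  rw [map_natCast, map_natCast]
  exact slope_q hf hq

theorem slope_flip {f : ℕ} (hf : f ≠ 0) (hq : q = p ^ f) {y y' : K} (hy : y' ≠ 0)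
    (h : Sim (y : ℂ) ((q : ℂ) / (y' : ℂ))) (σ : K ≃ₐ[ℚ] K) :
    slope p q (φ (σ y)) = 1 - slope p q (φ (σ y')) := by
  have hq0 : (q : K) ≠ 0 := by
    have : q ≠ 0 := by rw [hq]; exact pow_ne_zero _ (Fact.out : p.Prime).ne_zero
    exact_mod_cast this
  have h1 : Sim (y : ℂ) (((q : K) / y' : K) : ℂ) := by
    have e : (((q : K) / y' : K) : ℂ) = (q : ℂ) / (y' : ℂ) := by push_cast; rfl
    rw [e]; exact h
  rw [slope_sim q φ h1 σ]
  have h2 : slope p q (φ (σ ((q : K) / y' * y'))) = 1 := by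
    rw [div_mul_cancel₀ _ hy]; exact slope_nat φ hf hq σ
  have hz : ∀ t : K, t ≠ 0 → φ (σ t) ≠ 0 := fun t ht =>
    (_root_.map_ne_zero φ).mpr ((_root_.map_ne_zero σ).mpr ht)
  rw [map_mul, map_mul, slope_mul q (hz _ (div_ne_zero hq0 hy)) (hz _ hy)] at h2
  linarith

/-- orthogonality -/
theorem ip_zero {f : ℕ} (hf : f ≠ 0) (hq : q = p ^ f) (w : ℕ) {x y : K} (hy : y ≠ 0)
    (τ : ℂ ≃+* ℂ) (h1 : Sim (τ x) x) (h2 : Sim (τ y) ((q : ℂ) / y)) :
    ∑ σ, uu q K φ w x σ * uu q K φ 1 y σ = 0 := by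
  have e : ∑ σ, uu q K φ w x σ * uu q K φ 1 y σ =
      ∑ σ, uu q K φ w x (σ * res K τ) * uu q K φ 1 y (σ * res K τ) :=
    (Equiv.sum_comp (Equiv.mulRight (res K τ)) fun σ => uu q K φ w x σ * uu q K φ 1 y σ).symm
  have e2 : ∀ σ, uu q K φ w x (σ * res K τ) * uu q K φ 1 y (σ * res K τ) =
      -(uu q K φ w x σ * uu q K φ 1 y σ) := by
    intro σ
    have h3 : slope p q (φ (σ (res K τ x))) = slope p q (φ (σ x)) := by
      apply slope_sim
      rw [res_coe]; exact h1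
    have h4 : slope p q (φ (σ (res K τ y))) = 1 - slope p q (φ (σ y)) := by
      apply slope_flip φ hf hq hy
      rw [res_coe]; exact h2
    unfold uu
    rw [AlgEquiv.mul_apply, AlgEquiv.mul_apply, h3, h4]
    push_cast
    ring
  rw [Finset.sum_congr rfl (fun σ _ => e2 σ), Finset.sum_neg_distrib] at e
  linarith

theorem slope_list {ι : Type*} (y : ι → K) (l : List ι) (h : ∀ i ∈ l, y i ≠ 0)
    (σ : K ≃ₐ[ℚ] K) :
    slope p q (φ (σ ((l.map y).prod))) = (l.map fun i => slope p q (φ (σ (y i)))).sum ∧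
      (l.map y).prod ≠ 0 := by
  induction l with
  | nil => simp [slope_one]
  | cons i l ih =>
    obtain ⟨h1, h2⟩ := ih (fun j hj => h j (by simp [hj]))
    have h3 := h i (by simp)
    have hz : ∀ t : K, t ≠ 0 → φ (σ t) ≠ 0 := fun t ht =>
      (_root_.map_ne_zero φ).mpr ((_root_.map_ne_zero σ).mpr ht)
    simp only [List.map_cons, List.prod_cons, List.sum_cons]
    refine ⟨?_, mul_ne_zero h3 h2⟩
    rw [map_mul, map_mul, slope_mul q (hz _ h3) (hz _ h2), h1]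

theorem uu_list {ι : Type*} (y : ι → K) (l : List ι) (σ : K ≃ₐ[ℚ] K) :
    (l.map fun i => uu q K φ 1 (y i) σ).sum =
      2 * (l.map fun i => slope p q (φ (σ (y i)))).sum - l.length := by
  induction l with
  | nil => simp
  | cons i l ih =>
    simp only [List.map_cons, List.sum_cons, List.length_cons]
    rw [ih]
    unfold uu
    push_cast
    ring

include φ in
/-- the inequality, inside a Galois number field -/
theorem key_field {f : ℕ} (hf : f ≠ 0) (hq : q = p ^ f) {ι : Type*} (w b m n : ℕ) (z a : K)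
    (y : ι → K) (l : List ι) (hz0 : z ≠ 0) (ha0 : a ≠ 0) (hy0 : ∀ i ∈ l, y i ≠ 0)
    (O2 : ∀ i ∈ l, ∃ τ : ℂ ≃+* ℂ, Sim (τ z) z ∧ Sim (τ (y i)) ((q : ℂ) / y i))
    (red : l.Pairwise fun i j => Sim (y i : ℂ) (y j) ∨
      ∃ τ : ℂ ≃+* ℂ, Sim (τ (y i)) (y i) ∧ Sim (τ (y j)) ((q : ℂ) / y j))
    (hn : 0 < n) (hm : m = w + b + l.length)
    (rel : (z * a * (l.map y).prod) ^ (2 * n) = (q : K) ^ (m * n)) :
    meanSq p q w (z : ℂ) + (l.map fun i => meanSq p q 1 (y i : ℂ)).sum ≤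
      meanSq p q b (a : ℂ) := by
  have hG : (0:ℝ) < (Fintype.card (K ≃ₐ[ℚ] K)) := by
    exact_mod_cast Fintype.card_pos
  have hz : ∀ σ : K ≃ₐ[ℚ] K, ∀ t : K, t ≠ 0 → φ (σ t) ≠ 0 := fun σ t ht =>
    (_root_.map_ne_zero φ).mpr ((_root_.map_ne_zero σ).mpr ht)
  -- the relation of slopes
  have hrel : ∀ σ, uu q K φ b a σ =
      -(uu q K φ w z σ + (l.map fun i => uu q K φ 1 (y i) σ).sum) := by
    intro σ
    have e := congrArg (fun t => slope p q (φ (σ t))) rel
    simp only [map_pow, slope_pow] at e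
    obtain ⟨h1, h2⟩ := slope_list (q := q) φ y l hy0 σ
    rw [slope_nat φ hf hq σ, map_mul, map_mul, map_mul, map_mul,
      slope_mul q (mul_ne_zero (hz σ _ hz0) (hz σ _ ha0)) (hz σ _ h2),
      slope_mul q (hz σ _ hz0) (hz σ _ ha0), h1] at e
    rw [uu_list]
    unfold uu
    have hn' : (n : ℝ) ≠ 0 := by exact_mod_cast hn.ne'
    push_cast at e
    have e2 : 2 * (slope p q (φ (σ z)) + slope p q (φ (σ a)) +
        (l.map fun i => slope p q (φ (σ (y i)))).sum) = m := by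
      apply mul_left_cancel₀ hn'
      linarith
    rw [hm] at e2
    push_cast at e2
    linarith
  have h1 : ∑ σ, (uu q K φ b a σ) ^ 2 = ∑ σ, (uu q K φ w z σ) ^ 2 +
      2 * ∑ σ, uu q K φ w z σ * ((l.map fun i => uu q K φ 1 (y i) σ).sum) +
      ∑ σ, ((l.map fun i => uu q K φ 1 (y i) σ).sum) ^ 2 := by
    rw [Finset.mul_sum, ← Finset.sum_add_distrib, ← Finset.sum_add_distrib]
    refine Finset.sum_congr rfl fun σ _ => ?_
    rw [hrel σ]; ring
  have h2 : ∑ σ, uu q K φ w z σ * ((l.map fun i => uu q K φ 1 (y i) σ).sum) = 0 := by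
    have : ∀ l' : List ι, (∀ i ∈ l', i ∈ l) →
        ∑ σ, uu q K φ w z σ * ((l'.map fun i => uu q K φ 1 (y i) σ).sum) = 0 := by
      intro l'
      induction l' with
      | nil => simp
      | cons i l' ih =>
        intro hl
        have e : ∑ σ, uu q K φ w z σ * (((i :: l').map fun i => uu q K φ 1 (y i) σ).sum) =
            ∑ σ, uu q K φ w z σ * uu q K φ 1 (y i) σ +
            ∑ σ, uu q K φ w z σ * ((l'.map fun i => uu q K φ 1 (y i) σ).sum) := by
          rw [← Finset.sum_add_distrib]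
          refine Finset.sum_congr rfl fun σ _ => ?_
          simp only [List.map_cons, List.sum_cons]; ring
        obtain ⟨τ, hτ1, hτ2⟩ := O2 i (hl i (by simp))
        rw [e, ip_zero φ hf hq w (hy0 i (hl i (by simp))) τ hτ1 hτ2,
          ih (fun j hj => hl j (by simp [hj])), add_zero]
    exact this l (fun i hi => hi)
  have h3 : (l.map fun i => ∑ σ, (uu q K φ 1 (y i) σ) ^ 2).sum ≤
      ∑ σ, ((l.map fun i => uu q K φ 1 (y i) σ).sum) ^ 2 := by
    apply sum_sq_ge (fun i σ => uu q K φ 1 (y i) σ)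
    have red' : l.Pairwise fun i j => (y i ≠ 0 ∧ y j ≠ 0) ∧ (Sim (y i : ℂ) (y j) ∨
        ∃ τ : ℂ ≃+* ℂ, Sim (τ (y i)) (y i) ∧ Sim (τ (y j)) ((q : ℂ) / y j)) := by
      refine List.Pairwise.imp_of_mem ?_ red
      intro i j hi hj h
      exact ⟨⟨hy0 i hi, hy0 j hj⟩, h⟩
    refine red'.imp ?_
    rintro i j ⟨⟨-, hj⟩, h | ⟨τ, hτ1, hτ2⟩⟩
    · apply Finset.sum_nonneg
      intro σ _
      have : uu q K φ 1 (y i) σ = uu q K φ 1 (y j) σ := by
        unfold uu; rw [slope_sim q φ h σ]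
      rw [this]; exact mul_self_nonneg _
    · exact (ip_zero φ hf hq 1 hj τ hτ1 hτ2).ge
  have h4 : (l.map fun i => ∑ σ, (uu q K φ 1 (y i) σ) ^ 2).sum =
      (Fintype.card (K ≃ₐ[ℚ] K)) * (l.map fun i => meanSq p q 1 (y i : ℂ)).sum := by
    rw [← List.sum_map_mul_left]
    congr 1
    apply List.map_congr_left
    intro i _
    exact mean_eq q K φ 1 (y i)
  rw [mean_eq, h2, mean_eq] at h1
  rw [h4] at h3
  have h5 : (Fintype.card (K ≃ₐ[ℚ] K) : ℝ) * (meanSq p q w (z : ℂ) +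
      (l.map fun i => meanSq p q 1 (y i : ℂ)).sum) ≤
      (Fintype.card (K ≃ₐ[ℚ] K)) * meanSq p q b (a : ℂ) := by
    rw [h1, mul_add]; linarith
  exact le_of_mul_le_mul_left h5 hG

end field

/-! ### the Galois number field generated by finitely many algebraic numbers -/

theorem exists_field (S : Finset ℂ) (hS : ∀ x ∈ S, IsIntegral ℚ x) :
    ∃ K : IntermediateField ℚ ℂ, FiniteDimensional ℚ K ∧ IsGalois ℚ K ∧ ∀ x ∈ S, x ∈ K := by
  classical
  set P : ℚ[X] := ∏ x ∈ S, minpoly ℚ x with hP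
  have hP0 : P ≠ 0 := Finset.prod_ne_zero_iff.mpr fun x hx => minpoly.ne_zero (hS x hx)
  have hsp : (P.map (algebraMap ℚ ℂ)).Splits := IsAlgClosed.splits _
  have hspl : IsSplittingField ℚ (IntermediateField.adjoin ℚ (P.rootSet ℂ)) P :=
    IntermediateField.adjoin_rootSet_isSplittingField hsp
  refine ⟨IntermediateField.adjoin ℚ (P.rootSet ℂ), ?_, ?_, ?_⟩
  · exact @IsSplittingField.finiteDimensional _ _ _ _ _ P hspl
  · have h1 : Normal ℚ (IntermediateField.adjoin ℚ (P.rootSet ℂ)) :=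
      @Normal.of_isSplittingField _ _ _ _ _ P hspl
    exact ⟨⟩
  · intro x hx
    apply IntermediateField.subset_adjoin
    rw [mem_rootSet]
    refine ⟨hP0, ?_⟩
    rw [hP, map_prod]
    exact Finset.prod_eq_zero hx (minpoly.aeval ℚ x)

theorem exists_hom (p : ℕ) [Fact p.Prime] (K : IntermediateField ℚ ℂ) [FiniteDimensional ℚ K] :
    Nonempty (K →+* PadicAlgCl p) :=
  ⟨(IsAlgClosed.lift (R := ℚ) (M := PadicAlgCl p) (S := K)).toRingHom⟩

theorem meanSq_nonneg (p q w : ℕ) [Fact p.Prime] (x : ℂ) : 0 ≤ meanSq p q w x := by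
  unfold meanSq
  apply div_nonneg _ (Nat.cast_nonneg _)
  apply Multiset.sum_nonneg
  intro r hr
  obtain ⟨t, -, rfl⟩ := Multiset.mem_map.mp hr
  positivity

/-- the inequality between mean squares of slopes -/
theorem key {p : ℕ} [Fact p.Prime] {f q : ℕ} (hf : f ≠ 0) (hq : q = p ^ f) {ι : Type*}
    [Finite ι] (w b m n : ℕ) (z a : ℂ) (y : ι → ℂ) (l : List ι) (hz : IsWeil q w z)
    (ha : IsWeil q b a) (hy : ∀ i, IsWeil q 1 (y i))
    (O2 : ∀ i ∈ l, ∃ τ : ℂ ≃+* ℂ, Sim (τ z) z ∧ Sim (τ (y i)) ((q : ℂ) / y i))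
    (red : l.Pairwise fun i j => Sim (y i) (y j) ∨
      ∃ τ : ℂ ≃+* ℂ, Sim (τ (y i)) (y i) ∧ Sim (τ (y j)) ((q : ℂ) / y j))
    (hn : 0 < n) (hm : m = w + b + l.length)
    (rel : (z * a * (l.map y).prod) ^ (2 * n) = (q : ℂ) ^ (m * n)) :
    meanSq p q w z + (l.map fun i => meanSq p q 1 (y i)).sum ≤ meanSq p q b a := by
  classical
  have := Fintype.ofFinite ι
  have hq0 : q ≠ 0 := by rw [hq]; exact pow_ne_zero _ (Fact.out : p.Prime).ne_zero
  have hiq : ∀ {w : ℕ} {x : ℂ}, IsWeil q w x → IsIntegral ℚ x := fun h => h.1.tower_top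
  obtain ⟨K, hK1, hK2, hK3⟩ := exists_field ({z, a} ∪ Finset.univ.image y) (by
    intro x hx
    simp only [Finset.mem_union, Finset.mem_insert, Finset.mem_singleton, Finset.mem_image,
      Finset.mem_univ, true_and] at hx
    rcases hx with (rfl | rfl) | ⟨i, rfl⟩
    · exact hiq hz
    · exact hiq ha
    · exact hiq (hy i))
  have hzK : z ∈ K := hK3 z (by simp)
  have haK : a ∈ K := hK3 a (by simp)
  have hyK : ∀ i, y i ∈ K := fun i => hK3 (y i) (by simp)
  obtain ⟨φ⟩ := exists_hom p K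
  have hrel : ((⟨z, hzK⟩ : K) * ⟨a, haK⟩ * (l.map fun i => (⟨y i, hyK i⟩ : K)).prod) ^ (2 * n) =
      (q : K) ^ (m * n) := by
    apply Subtype.ext
    have e : (((l.map fun i => (⟨y i, hyK i⟩ : K)).prod : K) : ℂ) = (l.map y).prod := by
      have := map_list_prod K.val (l.map fun i => (⟨y i, hyK i⟩ : K))
      rw [List.map_map] at this
      exact this
    have e3 : (((⟨z, hzK⟩ : K) * ⟨a, haK⟩ * (l.map fun i => (⟨y i, hyK i⟩ : K)).prod) ^ (2 * n) : K)
        = (z * a * (((l.map fun i => (⟨y i, hyK i⟩ : K)).prod : K) : ℂ)) ^ (2 * n) := rfl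
    have e4 : (((q : K) ^ (m * n) : K) : ℂ) = (q : ℂ) ^ (m * n) := by push_cast; rfl
    rw [e3, e4, e]
    exact rel
  have := key_field (K := K) (q := q) φ hf hq w b m n (⟨z, hzK⟩ : K) (⟨a, haK⟩ : K)
    (fun i => (⟨y i, hyK i⟩ : K)) l
    (fun h => hz.ne_zero hq0 (congrArg Subtype.val h))
    (fun h => ha.ne_zero hq0 (congrArg Subtype.val h))
    (fun i _ h => (hy i).ne_zero hq0 (congrArg Subtype.val h)) O2 red hn hm hrel
  exact this

/-- Kronecker: a Weil number all of whose slopes are half its weight -/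
theorem kron_weil {p : ℕ} [Fact p.Prime] {f q : ℕ} (hf : f ≠ 0) (hq : q = p ^ f) (w : ℕ)
    (z : ℂ) (hz : IsWeil q w z) (h0 : meanSq p q w z ≤ 0) :
    ∃ n : ℕ, 0 < n ∧ z ^ (2 * n) = (q : ℂ) ^ (w * n) := by
  classical
  have hq0 : q ≠ 0 := by rw [hq]; exact pow_ne_zero _ (Fact.out : p.Prime).ne_zero
  obtain ⟨K, hK1, hK2, hK3⟩ := exists_field {z} (by
    intro x hx
    rw [Finset.mem_singleton] at hx
    rw [hx]; exact hz.1.tower_top)
  have hzK : z ∈ K := hK3 z (by simp)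
  obtain ⟨φ⟩ := exists_hom p K
  have h1 := mean_eq q K φ w ⟨z, hzK⟩
  have h2 : ∑ σ, (uu q K φ w ⟨z, hzK⟩ σ) ^ 2 ≤ 0 := by
    rw [h1]
    exact mul_nonpos_of_nonneg_of_nonpos (Nat.cast_nonneg _) h0
  have h3 : ∀ σ, uu q K φ w ⟨z, hzK⟩ σ = 0 := by
    intro σ
    have h4 := Finset.single_le_sum (f := fun σ => (uu q K φ w ⟨z, hzK⟩ σ) ^ 2)
      (fun σ _ => sq_nonneg _) (Finset.mem_univ σ)
    have h5 : (uu q K φ w ⟨z, hzK⟩ σ) ^ 2 ≤ 0 := le_trans h4 h2
    exact pow_eq_zero_iff (two_ne_zero) |>.mp (le_antisymm h5 (sq_nonneg _))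
  haveI : NumberField K := ⟨⟩
  have hlp : Real.log p ≠ 0 := by
    have hp : (1:ℝ) < p := by exact_mod_cast (Fact.out : p.Prime).one_lt
    exact (Real.log_pos hp).ne'
  have hlq : Real.log q ≠ 0 := by
    rw [hq]; push_cast; rw [Real.log_pow]
    exact mul_ne_zero (by exact_mod_cast hf) hlp
  obtain ⟨M, hM, hM2⟩ := kron φ (f := f) q hq w (⟨z, hzK⟩ : K)
    (by
      have := hz.1
      exact (isIntegral_algHom_iff (K.val.restrictScalars ℤ) K.val.injective).mp this)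
    (by
      intro σ
      have h4 := h3 σ
      unfold uu slope at h4
      have hzne : φ (σ (⟨z, hzK⟩ : K)) ≠ 0 := by
        rw [_root_.map_ne_zero, _root_.map_ne_zero]
        exact fun h => hz.ne_zero hq0 (congrArg Subtype.val h)
      have hqne : ((q : ℕ) : PadicAlgCl p) ≠ 0 := by exact_mod_cast hq0
      have hs := slope_q (p := p) hf hq
      unfold slope at hs
      have h5 : Real.log ‖((q : ℕ) : PadicAlgCl p)‖ = - Real.log q := by
        field_simp at hs; linarith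
      have h6 : 2 * Real.log ‖φ (σ (⟨z, hzK⟩ : K))‖ = w * Real.log ‖((q : ℕ) : PadicAlgCl p)‖ := by
        rw [h5]; field_simp at h4; linarith
      have h7 : Real.log (‖φ (σ (⟨z, hzK⟩ : K))‖ ^ 2) =
          Real.log (‖((q : ℕ) : PadicAlgCl p)‖ ^ w) := by
        rw [Real.log_pow, Real.log_pow]; push_cast; exact h6
      exact Real.log_injOn_pos (Set.mem_Ioi.mpr (pow_pos (norm_pos_iff.mpr hzne) _))
        (Set.mem_Ioi.mpr (pow_pos (norm_pos_iff.mpr hqne) _)) h7)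
    (by
      intro ψ
      apply hz.2
      have hmin : minpoly ℚ z = minpoly ℚ (⟨z, hzK⟩ : K) :=
        minpoly.algebraMap_eq (A := ℚ) (algebraMap K ℂ).injective (⟨z, hzK⟩ : K)
      rw [hmin]
      have h5 := minpoly.aeval ℚ (⟨z, hzK⟩ : K)
      have h6 := Polynomial.aeval_algHom_apply ψ.toRatAlgHom (⟨z, hzK⟩ : K)
        (minpoly ℚ (⟨z, hzK⟩ : K))
      rw [h5, map_zero] at h6
      exact h6)
  refine ⟨M, hM, ?_⟩
  have := congrArg (fun t : K => (t : ℂ)) hM2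
  push_cast at this
  exact this

end Pool.Agent.H61.TM
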