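import Mathlib
import Pool.Agent.H61.TM.Defs
import Pool.Agent.H61.TM.Key
import Pool.Agent.H61.TM.Lin

/-!
The theorem on Tate classes of `M ⊗ U ⊗ Λ V`.
-/

namespace Pool.Agent.H61.TM

open scoped TensorProduct

section general

variable {M W : Type*} [AddCommGroup M] [Module ℂ M] [AddCommGroup W] [Module ℂ W]

theorem eig_pow {F : Module.End ℂ W} {x : W} {a : ℂ} (h : F x = a • x) (n : ℕ) :
    (F ^ n) x = a ^ n • x := by
  induction n with
  | zero => simp
  | succ n ih => rw [pow_succ, Module.End.mul_apply, h, map_smul, ih, smul_smul, pow_succ', mul_comm]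

theorem map_pow_tmul (FM : Module.End ℂ M) (FW : Module.End ℂ W) (n : ℕ) (x : M) (y : W) :
    ((TensorProduct.map FM FW) ^ n) (x ⊗ₜ[ℂ] y) = ((FM ^ n) x) ⊗ₜ[ℂ] ((FW ^ n) y) := by
  induction n with
  | zero => simp
  | succ n ih =>
    rw [pow_succ', Module.End.mul_apply, ih, TensorProduct.map_tmul, pow_succ', pow_succ',
      Module.End.mul_apply, Module.End.mul_apply]

/-- decomposition of an eigenvector along an eigenbasis of the right factor -/
theorem decomp {κ : Type*} (FM : Module.End ℂ M) (FW : Module.End ℂ W)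
    (B : Module.Basis κ ℂ W) (lam : κ → ℂ) (hB : ∀ k, FW (B k) = lam k • B k) (n : ℕ) (c : ℂ)
    (x : M ⊗[ℂ] W) (hx : ((TensorProduct.map FM FW) ^ n) x = c • x) :
    ∃ s : κ →₀ M, (s.sum fun k t => t ⊗ₜ[ℂ] B k) = x ∧
      ∀ k, (lam k) ^ n • (FM ^ n) (s k) = c • s k := by
  classical
  obtain ⟨s, hs⟩ := TensorProduct.eq_repr_basis_right B x
  refine ⟨s, hs, ?_⟩
  set s1 : κ →₀ M := s.support.sum fun k => Finsupp.single k ((lam k) ^ n • (FM ^ n) (s k)) with hs1
  have hs1k : ∀ k, s1 k = (lam k) ^ n • (FM ^ n) (s k) := by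
    intro k
    rw [hs1, Finsupp.finsetSum_apply]
    by_cases hk : k ∈ s.support
    · rw [Finset.sum_eq_single k]
      · simp
      · intro k' _ hk'; exact Finsupp.single_eq_of_ne (Ne.symm hk')
      · intro h; exact absurd hk h
    · rw [Finset.sum_eq_zero]
      · have : s k = 0 := by simpa using hk
        rw [this]; simp
      · intro k' hk'
        apply Finsupp.single_eq_of_ne
        rintro rfl
        exact hk hk'
  have e1 : TensorProduct.equivFinsuppOfBasisRight B (((TensorProduct.map FM FW) ^ n) x) = s1 := by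
    rw [← hs, Finsupp.sum, map_sum, map_sum, hs1]
    refine Finset.sum_congr rfl fun k _ => ?_
    rw [map_pow_tmul, eig_pow (hB k), TensorProduct.tmul_smul, TensorProduct.smul_tmul']
    ext k'
    rw [TensorProduct.equivFinsuppOfBasisRight_apply_tmul_apply]
    by_cases h : k = k'
    · subst h; simp
    · rw [Finsupp.single_eq_of_ne (Ne.symm h), Module.Basis.repr_self,
        Finsupp.single_eq_of_ne (Ne.symm h), zero_smul]
  have e2 : TensorProduct.equivFinsuppOfBasisRight B x = s := by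
    rw [← hs, Finsupp.sum, map_sum]
    conv_rhs => rw [← Finsupp.sum_single s, Finsupp.sum]
    refine Finset.sum_congr rfl fun k _ => ?_
    ext k'
    rw [TensorProduct.equivFinsuppOfBasisRight_apply_tmul_apply]
    by_cases h : k = k'
    · subst h; simp
    · rw [Finsupp.single_eq_of_ne (Ne.symm h), Module.Basis.repr_self,
        Finsupp.single_eq_of_ne (Ne.symm h), zero_smul]
  have e3 : s1 = c • s := by
    rw [← e1, hx, map_smul, e2]
  intro k
  rw [← hs1k k, e3, Finsupp.smul_apply]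

/-- a vector fixed up to a scalar by a power of `F` gives an eigenvalue of `F` -/
theorem exists_eig [Module.Finite ℂ M] (FM : Module.End ℂ M) (n : ℕ) (x : M) (hx : x ≠ 0)
    (c : ℂ) (h : (FM ^ n) x = c • x) : ∃ z, FM.HasEigenvalue z ∧ z ^ n = c := by
  set E : Submodule ℂ M := Module.End.eigenspace (FM ^ n) c with hE
  have hxE : x ∈ E := Module.End.mem_eigenspace_iff.mpr h
  have hcomm : Commute FM (FM ^ n) := (Commute.refl FM).pow_right n
  have hmaps : ∀ v ∈ E, FM v ∈ E := by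
    intro v hv
    rw [hE, Module.End.mem_eigenspace_iff] at hv ⊢
    rw [← Module.End.mul_apply, ← hcomm.eq, Module.End.mul_apply, hv, map_smul]
  have : Nontrivial E := ⟨⟨⟨x, hxE⟩, 0, fun h => hx (congrArg Subtype.val h)⟩⟩
  obtain ⟨z, hz⟩ := Module.End.exists_eigenvalue (FM.restrict hmaps)
  obtain ⟨v, hv⟩ := hz.exists_hasEigenvector
  have hv1 : FM (v : M) = z • (v : M) := by
    have := congrArg Subtype.val hv.apply_eq_smul
    simpa using this
  have hv0 : (v : M) ≠ 0 := fun h => hv.2 (Subtype.ext h)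
  refine ⟨z, Module.End.hasEigenvalue_of_hasEigenvector
    (Module.End.hasEigenvector_iff.mpr ⟨Module.End.mem_eigenspace_iff.mpr hv1, hv0⟩), ?_⟩
  have hv2 : (FM ^ n) (v : M) = c • (v : M) := Module.End.mem_eigenspace_iff.mp v.2
  rw [eig_pow hv1] at hv2
  exact smul_left_injective ℂ hv0 hv2

end general

section main

variable {M U V : Type*} [AddCommGroup M] [Module ℂ M] [AddCommGroup U] [Module ℂ U]
  [AddCommGroup V] [Module ℂ V]
variable {q w b : ℕ} {N c : ℝ} {FM : Module.End ℂ M} {FU : Module.End ℂ U} {FV : Module.End ℂ V}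

theorem known_zero : Known q w b N c FM FU FV 0 :=
  Known.low 0 0 0 (Or.inl rfl) (Submodule.zero_mem _) ⟨1, one_pos, by simp⟩

theorem known_sum {κ : Type*} (s : Finset κ) (f : κ → M ⊗[ℂ] (U ⊗[ℂ] ExteriorAlgebra ℂ V))
    (h : ∀ k ∈ s, Known q w b N c FM FU FV (f k)) : Known q w b N c FM FU FV (∑ k ∈ s, f k) := by
  classical
  induction s using Finset.induction_on with
  | empty => simpa using known_zero
  | insert a s ha ih =>
    rw [Finset.sum_insert ha]
    exact Known.add _ _ (h a (by simp)) (ih fun k hk => h k (by simp [hk]))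

theorem known_neg (x : M ⊗[ℂ] (U ⊗[ℂ] ExteriorAlgebra ℂ V)) (h : Known q w b N c FM FU FV x) :
    Known q w b N c FM FU FV (-x) := by
  have := Known.smul (-1) x h
  simpa using this

theorem mem_degU {k : ℕ} (u : U) (z : ExteriorAlgebra ℂ V) (hz : z ∈ ⋀[ℂ]^k V) :
    u ⊗ₜ[ℂ] z ∈ degU U V k :=
  ⟨u ⊗ₜ[ℂ] (⟨z, hz⟩ : ⋀[ℂ]^k V), by simp⟩

theorem mem_deg {k : ℕ} (x : M) (r : U ⊗[ℂ] ExteriorAlgebra ℂ V) (hr : r ∈ degU U V k) :
    x ⊗ₜ[ℂ] r ∈ deg M U V k :=
  ⟨x ⊗ₜ[ℂ] (⟨r, hr⟩ : degU U V k), by simp⟩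

theorem norm_prod_sq {ι : Type*} (y : ι → ℂ) (hy : ∀ i, IsWeil q 1 (y i)) (l : List ι) :
    ‖(l.map y).prod‖ ^ 2 = (q : ℝ) ^ l.length := by
  induction l with
  | nil => simp
  | cons i l ih =>
    rw [List.map_cons, List.prod_cons, norm_mul, mul_pow, ih, (hy i).norm_sq, List.length_cons,
      ← pow_add, add_comm]

theorem sum_ge {ι : Type*} (g : ι → ℝ) (c : ℝ) (h : ∀ i, c ≤ g i) (l : List ι) :
    l.length * c ≤ (l.map g).sum := by
  induction l with
  | nil => simp
  | cons i l ihl =>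
    simp only [List.length_cons, List.map_cons, List.sum_cons]
    push_cast
    have := h i
    linarith

theorem known_pure {p f : ℕ} [Fact p.Prime] (hf : f ≠ 0) (hq : q = p ^ f)
    [Module.Finite ℂ M] {ι : Type*} [Finite ι]
    (e : ι → V) (y : ι → ℂ) (he : ∀ i, FV (e i) = y i • e i)
    (hz : ∀ z, FM.HasEigenvalue z → IsWeil q w z) (hy : ∀ i, IsWeil q 1 (y i))
    (hyc : ∀ i, c ≤ meanSq p q 1 (y i))
    (O1 : ∀ i j, Sim (y i) (y j) ∨ Sim (y i * y j) q ∨
      ∃ τ : ℂ ≃+* ℂ, Sim (τ (y i)) (y i) ∧ Sim (τ (y j)) ((q : ℂ) / y j))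
    (O2 : ∀ z, FM.HasEigenvalue z → ∀ i,
      ∃ τ : ℂ ≃+* ℂ, Sim (τ z) z ∧ Sim (τ (y i)) ((q : ℂ) / y i))
    (u : U) (a : ℂ) (hu : FU u = a • u) (ha : IsWeil q b a) (hN : meanSq p q b a ≤ N)
    (x : M) (hx : x ≠ 0) :
    ∀ (d : ℕ) (l : List ι), l.length = d → ∀ n : ℕ, 0 < n →
      (a * (l.map y).prod) ^ (2 * n) • (FM ^ (2 * n)) x = (q : ℂ) ^ ((w + b + l.length) * n) • x →
      Known q w b N c FM FU FV (x ⊗ₜ[ℂ] (u ⊗ₜ[ℂ] mono e l)) := by
  have hq0 : q ≠ 0 := by rw [hq]; exact pow_ne_zero _ (Fact.out : p.Prime).ne_zero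
  have hqC : (q : ℂ) ≠ 0 := by exact_mod_cast hq0
  have ha0 : a ≠ 0 := ha.ne_zero hq0
  have hprod0 : ∀ l : List ι, (l.map y).prod ≠ 0 := by
    intro l
    apply List.prod_ne_zero
    intro h
    obtain ⟨i, -, hi⟩ := List.mem_map.mp h
    exact (hy i).ne_zero hq0 hi
  intro d
  induction d using Nat.strong_induction_on with
  | _ d ih =>
  intro l hl n hn hrel
  by_cases hp : l.Pairwise fun i j => ¬ Sim (y i * y j) q
  · -- no pair: the inequality
    obtain ⟨al, hal⟩ : ∃ al : ℂ, al = a * (l.map y).prod := ⟨_, rfl⟩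
    have hal0 : al ≠ 0 := by rw [hal]; exact mul_ne_zero ha0 (hprod0 l)
    rw [← hal] at hrel
    have hFx : (FM ^ (2 * n)) x = ((q : ℂ) ^ ((w + b + l.length) * n) / al ^ (2 * n)) • x := by
      rw [div_eq_inv_mul, mul_smul, ← hrel, smul_smul, inv_mul_cancel₀ (pow_ne_zero _ hal0),
        one_smul]
    obtain ⟨z, hzE, hzn⟩ := exists_eig FM (2 * n) x hx _ hFx
    have hzal : (z * al) ^ (2 * n) = (q : ℂ) ^ ((w + b + l.length) * n) := by
      rw [mul_pow, hzn, div_mul_cancel₀ _ (pow_ne_zero _ hal0)]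
    have hineq : meanSq p q w z + (l.map fun i => meanSq p q 1 (y i)).sum ≤ meanSq p q b a := by
      apply key hf hq w b (w + b + l.length) n z a y l (hz z hzE) ha hy
      · intro i _; exact O2 z hzE i
      · refine hp.imp ?_
        intro i j hij
        rcases O1 i j with h | h | h
        · exact Or.inl h
        · exact absurd h hij
        · exact Or.inr h
      · exact hn
      · rfl
      · rw [mul_assoc, ← hal]; exact hzal
    have hsum : l.length * c ≤ (l.map fun i => meanSq p q 1 (y i)).sum :=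
      sum_ge (fun i => meanSq p q 1 (y i)) c hyc l
    have hz0 := meanSq_nonneg p q w z
    have hkc : (l.length : ℝ) * c ≤ N := by linarith
    have hfU : (ExteriorAlgebra.map FV).toLinearMap (mono e l) = (l.map y).prod • mono e l :=
      map_mono e y FV he l
    have hfr : frobU FU FV (u ⊗ₜ[ℂ] mono e l) = al • (u ⊗ₜ[ℂ] mono e l) := by
      unfold frobU
      rw [TensorProduct.map_tmul, hu, hfU, TensorProduct.tmul_smul, ← TensorProduct.smul_tmul',
        smul_smul, mul_comm, ← hal]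
    have hdeg : u ⊗ₜ[ℂ] mono e l ∈ degU U V l.length := mem_degU u _ (mono_mem e l)
    by_cases hlow : l.length = 0 ∨ (l.length : ℝ) * c < N
    · refine Known.low l.length (w + b + l.length) _ hlow (mem_deg x _ hdeg) ⟨n, hn, ?_⟩
      unfold frob
      rw [map_pow_tmul, eig_pow hfr, TensorProduct.tmul_smul, TensorProduct.smul_tmul', hrel,
        ← TensorProduct.smul_tmul']
    · push Not at hlow
      have hkN : (l.length : ℝ) * c = N := le_antisymm hkc hlow.2
      obtain ⟨n1, hn1, hzn1⟩ := kron_weil hf hq w z (hz z hzE) (by linarith)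
      refine Known.top l.length x _ hkN ⟨n * n1, Nat.mul_pos hn hn1, ?_⟩ hdeg
        ⟨n * n1, Nat.mul_pos hn hn1, ?_⟩
      · have e1 : (FM ^ (2 * n)) x = z ^ (2 * n) • x := by rw [hFx, hzn]
        have e2 : (FM ^ (2 * (n * n1))) x = (z ^ (2 * n)) ^ n1 • x := by
          rw [← eig_pow e1, ← pow_mul]; congr 2; ring
        rw [e2]
        congr 1
        have e3 : (z ^ (2 * n)) ^ n1 = (z ^ (2 * n1)) ^ n := by
          rw [← pow_mul, ← pow_mul]; congr 1; ring
        rw [e3, hzn1, ← pow_mul]; congr 1; ring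
      · rw [eig_pow hfr]
        congr 1
        have e1 : (z ^ (2 * n1)) ^ n * al ^ (2 * (n * n1)) =
            (q : ℂ) ^ (w * (n * n1)) * (q : ℂ) ^ ((b + l.length) * (n * n1)) := by
          have e2 : (z ^ (2 * n1)) ^ n * al ^ (2 * (n * n1)) = ((z * al) ^ (2 * n)) ^ n1 := by
            rw [← pow_mul, ← pow_mul, mul_pow]
            congr 2 <;> ring
          rw [e2, hzal, ← pow_mul, ← pow_add]
          congr 1; ring
        have e3 : (z ^ (2 * n1)) ^ n = (q : ℂ) ^ (w * (n * n1)) := by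
          rw [hzn1, ← pow_mul]; congr 1; ring
        rw [e3] at e1
        exact mul_left_cancel₀ (pow_ne_zero _ hqC) e1
  · -- a pair
    obtain ⟨i, j, l', hperm, hij⟩ := exists_pair l hp
    rw [not_not] at hij
    obtain ⟨r, hr, hr2⟩ := hij
    have hlen : l.length = l'.length + 2 := by
      have := hperm.length_eq
      simpa using this
    have hprod : (l.map y).prod = (l'.map y).prod * (y i * y j) := by
      have := (hperm.map y).prod_eq
      rw [this]; simp
    have hz2 : (y i * y j) ^ (2 * (n * r)) = (q : ℂ) ^ (2 * (n * r)) := by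
      have : (y i * y j) ^ (2 * (n * r)) = ((y i * y j) ^ r) ^ (2 * n) := by
        rw [← pow_mul]; congr 1; ring
      rw [this, hr2, ← pow_mul]; congr 1; ring
    have hK : Known q w b N c FM FU FV (x ⊗ₜ[ℂ] (u ⊗ₜ[ℂ] mono e l')) := by
      refine ih l'.length (by omega) l' rfl (n * r) (Nat.mul_pos hn hr) ?_
      have hal0 : a * (l.map y).prod ≠ 0 := mul_ne_zero ha0 (hprod0 l)
      have hFx : (FM ^ (2 * n)) x =
          ((q : ℂ) ^ ((w + b + l.length) * n) / (a * (l.map y).prod) ^ (2 * n)) • x := by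
        rw [div_eq_inv_mul, mul_smul, ← hrel, smul_smul, inv_mul_cancel₀ (pow_ne_zero _ hal0),
          one_smul]
      have e2 : (FM ^ (2 * (n * r))) x =
          ((q : ℂ) ^ ((w + b + l.length) * n) / (a * (l.map y).prod) ^ (2 * n)) ^ r • x := by
        rw [← eig_pow hFx, ← pow_mul]; congr 2; ring
      rw [e2, smul_smul]
      congr 1
      have e3 : (a * (l.map y).prod) ^ (2 * (n * r)) =
          (a * (l'.map y).prod) ^ (2 * (n * r)) * (q : ℂ) ^ (2 * (n * r)) := by
        rw [hprod, ← mul_assoc, mul_pow, hz2]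
      have e4 : ((q : ℂ) ^ ((w + b + l.length) * n) / (a * (l.map y).prod) ^ (2 * n)) ^ r =
          (q : ℂ) ^ ((w + b + l.length) * (n * r)) / (a * (l.map y).prod) ^ (2 * (n * r)) := by
        rw [div_pow, ← pow_mul, ← pow_mul]; congr 2 <;> ring
      rw [e4, e3, hlen]
      have h1 : (a * (l'.map y).prod) ^ (2 * (n * r)) ≠ 0 :=
        pow_ne_zero _ (mul_ne_zero ha0 (hprod0 l'))
      have h2 : (q : ℂ) ^ (2 * (n * r)) ≠ 0 := pow_ne_zero _ hqC
      rw [← mul_div_mul_left _ _ h1] 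
      field_simp
      ring
    have hmul := Known.mul _ (ExteriorAlgebra.ι ℂ (e i) * ExteriorAlgebra.ι ℂ (e j)) hK (by
        have := mono_mem e [i, j]
        simpa [mono] using this) ⟨n * r, Nat.mul_pos hn hr, by
        have h1 : (ExteriorAlgebra.map FV).toLinearMap
            (ExteriorAlgebra.ι ℂ (e i) * ExteriorAlgebra.ι ℂ (e j)) =
            (y i * y j) • (ExteriorAlgebra.ι ℂ (e i) * ExteriorAlgebra.ι ℂ (e j)) := by
          have := map_mono e y FV he [i, j]
          simpa [mono] using this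
        rw [eig_pow h1, hz2]⟩
    have e5 : mulBy M U (ExteriorAlgebra.ι ℂ (e i) * ExteriorAlgebra.ι ℂ (e j))
        (x ⊗ₜ[ℂ] (u ⊗ₜ[ℂ] mono e l')) = x ⊗ₜ[ℂ] (u ⊗ₜ[ℂ] mono e (l' ++ [i, j])) := by
      unfold mulBy
      rw [TensorProduct.map_tmul, TensorProduct.map_tmul, LinearMap.id_apply, LinearMap.id_apply,
        LinearMap.mulRight_apply, mono_append]
      simp [mono]
    rw [e5] at hmul
    rcases mono_perm e hperm with h | h
    · rw [h]; exact hmul
    · rw [h, TensorProduct.tmul_neg, TensorProduct.tmul_neg]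
      exact known_neg _ hmul

/-- MAIN THEOREM -/
theorem main {p f : ℕ} [Fact p.Prime] (hf : f ≠ 0) (hq : q = p ^ f)
    [Module.Finite ℂ M] {κ ι : Type*} [Finite ι]
    (u : Module.Basis κ ℂ U) (a : κ → ℂ) (hu : ∀ k, FU (u k) = a k • u k)
    (e : Module.Basis ι ℂ V) (y : ι → ℂ) (he : ∀ i, FV (e i) = y i • e i)
    (hz : ∀ z, FM.HasEigenvalue z → IsWeil q w z) (ha : ∀ k, IsWeil q b (a k))
    (hy : ∀ i, IsWeil q 1 (y i))
    (hN : ∀ k, meanSq p q b (a k) ≤ N) (hyc : ∀ i, c ≤ meanSq p q 1 (y i))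
    (O1 : ∀ i j, Sim (y i) (y j) ∨ Sim (y i * y j) q ∨
      ∃ τ : ℂ ≃+* ℂ, Sim (τ (y i)) (y i) ∧ Sim (τ (y j)) ((q : ℂ) / y j))
    (O2 : ∀ z, FM.HasEigenvalue z → ∀ i,
      ∃ τ : ℂ ≃+* ℂ, Sim (τ z) z ∧ Sim (τ (y i)) ((q : ℂ) / y i))
    (m : ℕ) (x : M ⊗[ℂ] (U ⊗[ℂ] ExteriorAlgebra ℂ V)) (hx : IsTate q m (frob FM FU FV) x) :
    Known q w b N c FM FU FV x := by
  have hq0 : q ≠ 0 := by rw [hq]; exact pow_ne_zero _ (Fact.out : p.Prime).ne_zero
  have hq1 : 1 < q := by rw [hq]; exact Nat.one_lt_pow hf (Fact.out : p.Prime).one_lt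
  obtain ⟨n, hn, hx⟩ := hx
  obtain ⟨B, hB⟩ := exists_mono_basis e
  choose lst hlst using hB
  have hfr : ∀ k, frobU FU FV ((u.tensorProduct B) k) =
      (a k.1 * ((lst k.2).map y).prod) • (u.tensorProduct B) k := by
    rintro ⟨k1, k2⟩
    have hfU : (ExteriorAlgebra.map FV).toLinearMap (mono e (lst k2)) =
        ((lst k2).map y).prod • mono e (lst k2) := map_mono e y FV he (lst k2)
    rw [Module.Basis.tensorProduct_apply, hlst k2]
    unfold frobU
    rw [TensorProduct.map_tmul, hu, hfU, TensorProduct.tmul_smul, ← TensorProduct.smul_tmul',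
      smul_smul, mul_comm]
  obtain ⟨s, hs, hs2⟩ := decomp FM (frobU FU FV) (u.tensorProduct B) _ hfr (2 * n) _ x hx
  rw [← hs]
  apply known_sum
  rintro ⟨k1, k2⟩ -
  change Known q w b N c FM FU FV (s (k1, k2) ⊗ₜ[ℂ] (u.tensorProduct B) (k1, k2))
  by_cases h0 : s (k1, k2) = 0
  · rw [h0, TensorProduct.zero_tmul]; exact known_zero
  have hrel := hs2 (k1, k2)
  simp only at hrel
  rw [Module.Basis.tensorProduct_apply, hlst k2]
  -- the weight
  have hm : m = w + b + (lst k2).length := by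
    have ha0 : a k1 * ((lst k2).map y).prod ≠ 0 := by
      apply mul_ne_zero ((ha k1).ne_zero hq0)
      apply List.prod_ne_zero
      intro h
      obtain ⟨i, -, hi⟩ := List.mem_map.mp h
      exact (hy i).ne_zero hq0 hi
    have hFx : (FM ^ (2 * n)) (s (k1, k2)) =
        ((q : ℂ) ^ (m * n) / (a k1 * ((lst k2).map y).prod) ^ (2 * n)) • s (k1, k2) := by
      rw [div_eq_inv_mul, mul_smul, ← hrel, smul_smul, inv_mul_cancel₀ (pow_ne_zero _ ha0),
        one_smul]
    obtain ⟨z, hzE, hzn⟩ := exists_eig FM (2 * n) _ h0 _ hFx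
    have hzal : (z * (a k1 * ((lst k2).map y).prod)) ^ (2 * n) = (q : ℂ) ^ (m * n) := by
      rw [mul_pow, hzn, div_mul_cancel₀ _ (pow_ne_zero _ ha0)]
    have hn1 : ‖z * (a k1 * ((lst k2).map y).prod)‖ ^ 2 = (q : ℝ) ^ (w + b + (lst k2).length) := by
      rw [norm_mul, norm_mul, mul_pow, mul_pow, (hz z hzE).norm_sq, (ha k1).norm_sq,
        norm_prod_sq y hy, ← pow_add, ← pow_add]
      congr 1; ring
    have hn2 := congrArg norm hzal
    rw [norm_pow, pow_mul, hn1, norm_pow, Complex.norm_natCast, ← pow_mul] at hn2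
    have hn3 : q ^ ((w + b + (lst k2).length) * n) = q ^ (m * n) := by exact_mod_cast hn2
    have hn4 := Nat.pow_right_injective hq1 hn3
    exact (Nat.eq_of_mul_eq_mul_right hn hn4).symm
  rw [hm] at hrel
  exact known_pure hf hq e y he hz hy hyc O1 O2 (u k1) (a k1) (hu k1) (ha k1) (hN k1) _ h0 _
    (lst k2) rfl n hn hrel

end main

end Pool.Agent.H61.TM
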